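import Pool.Agent.H65.AF.Defs
import Pool.Agent.H65.AF.StOld

/-!
helper75 (project MP_28250c_AF): the tautology form of the statement. A proof of the tautology that some clause is false extends
to a refutation of the CNF in the system with one more sound rule.
-/

set_option autoImplicit false

namespace ACpFrege

/-- The truth value of a formula. -/
def Fm.ev {p : ℕ} (v : ℕ → Bool) : Fm p → Bool
  | .var x => v x
  | .neg A => !(A.ev v)
  | .cn true _ A => (List.ofFn fun i => (A i).ev v).any id
  | .cn false _ A => (List.ofFn fun i => (A i).ev v).all id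
  | .md r _ A => decide ((((List.ofFn fun i => (A i).ev v).count true : ℕ) : ZMod p) = r)

/-- The formula is built with negations, conjunctions and disjunctions, and its variables have index below `n`. -/
def Fm.Plain {p : ℕ} (n : ℕ) : Fm p → Prop
  | .var x => x < n
  | .neg A => A.Plain n
  | .cn _ _ A => ∀ i, (A i).Plain n
  | .md _ _ _ => False

/-- `π` is a proof of the formula `T` in the Frege system `S` all of whose lines have depth at most `d`. -/
def Proves {p : ℕ} (S : List (Rule p)) (d : ℕ) (T : Fm p) (π : List (Fm p)) : Prop :=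
  (∀ A ∈ π, A.depth ≤ d) ∧ (∀ (i : ℕ) (h : i < π.length), Step S [] (π.take i) π[i]) ∧ T ∈ π

/-- The tautology of an unsatisfiable CNF: the negation of the conjunction of its clauses. -/
def tautFm {p : ℕ} (F : CNF) : Fm p := .neg (cnL false (F.map clauseFm))

/-- The statement with tautologies: there are tautologies `T n` in (at most) `n` variables and the connectives not, and, or, of
polynomial size and depth at most four, such that for every finite set `S` of sound schematic rules and every depth `d` all proofs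
of `T n` of depth `d` have size at least `2^(n^ε)`. -/
def StatementTaut (p : ℕ) : Prop :=
  ∃ (T : ℕ → Fm p) (c : ℕ), (∀ n, (T n).Plain n ∧ (∀ v, (T n).ev v = true) ∧ (T n).size ≤ (n + 2) ^ c ∧ (T n).depth ≤ 4) ∧
    ∀ S : List (Rule p), (∀ R ∈ S, R.Sound) → ∀ d : ℕ, ∃ ε : ℝ, 0 < ε ∧ ∃ n₀ : ℕ, ∀ n ≥ n₀,
      ∀ π : List (Fm p), Proves S d (T n) π → (2 : ℝ) ^ ((n : ℝ) ^ ε) ≤ psize π

/-- The additional rule: from the negation of a conjunction and all its members infer falsity. -/
def ruleR {p : ℕ} : Rule p := ⟨[.neg (.cn false 1 fun _ => .sq 0), .sq 0], .cn true 0 fun _ => .sq 0⟩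

theorem ruleR_sound {p : ℕ} : (ruleR (p := p)).Sound := by
  intro v w h
  exfalso
  have h1 := h (.neg (.cn false 1 fun _ => .sq 0)) (by simp [ruleR])
  have h2 := h (.sq 0) (by simp [ruleR])
  simp only [Sch.ev] at h1 h2
  have h3 : (List.ofFn (fun _ : Fin 1 => w 0)).flatten = w 0 := by simp [List.ofFn_succ]
  rw [h3] at h1
  have h4 : (w 0).all id = true := by
    rw [List.all_eq_true]
    intro x hx
    exact h2 x hx
  rw [h4] at h1
  simpa using h1 _ (List.mem_singleton.mpr rfl)

theorem step_mono {p : ℕ} {S S' : List (Rule p)} {F F' : CNF} {prev prev' : List (Fm p)} {A : Fm p} (hS : ∀ R ∈ S, R ∈ S')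
    (hF : ∀ C ∈ F, C ∈ F') (hp : ∀ B ∈ prev, B ∈ prev') (h : Step S F prev A) : Step S' F' prev' A := by
  rcases h with ⟨C, hC, rfl⟩ | ⟨R, hR, s, G, h1, h2⟩
  · exact Or.inl ⟨C, hF C hC, rfl⟩
  · exact Or.inr ⟨R, hS R hR, s, G, h1, fun P hP B hB => hp B (h2 P hP B hB)⟩

theorem cnL_size {p : ℕ} (k : Bool) (l : List (Fm p)) : (cnL k l).size = 1 + (l.map Fm.size).sum := by
  simp only [cnL, Fm.size]
  congr 1
  rw [← List.sum_ofFn]
  congr 1
  apply List.ext_getElem
  · simp
  · intro i h1 h2
    simp

theorem clause_dep {p : ℕ} (C : List Lit) (c : ℕ) : (clauseFm (p := p) C).dep c ≤ 2 := by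
  simp only [clauseFm, cnL, Fm.dep]
  have h1 : (Finset.univ.sup fun i => (((C.map fun l : Lit => if l.2 then Fm.var l.1 else Fm.neg (Fm.var (p := p) l.1)).get i).dep
      (if true = true then 2 else 3))) ≤ 1 := by
    apply Finset.sup_le
    intro i _
    have h2 := List.get_mem (C.map fun l : Lit => if l.2 then Fm.var l.1 else Fm.neg (Fm.var (p := p) l.1)) i
    rw [List.mem_map] at h2
    obtain ⟨l, _, hl⟩ := h2
    rw [← hl]
    by_cases hb : l.2 = true
    · simp [hb, Fm.dep]
    · simp [hb, Fm.dep]
  have h3 : (if c = (if true = true then 2 else 3) then 0 else 1) ≤ 1 := by split_ifs <;> omega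
  simp only [if_true] at h1 h3 ⊢
  omega

theorem taut_depth {p : ℕ} (F : CNF) : (tautFm (p := p) F).depth ≤ 4 := by
  simp only [Fm.depth, tautFm, cnL, Fm.dep]
  have h1 : (Finset.univ.sup fun i => ((F.map (clauseFm (p := p))).get i).dep (if false = true then 2 else 3)) ≤ 2 := by
    apply Finset.sup_le
    intro i _
    have h2 := List.get_mem (F.map (clauseFm (p := p))) i
    rw [List.mem_map] at h2
    obtain ⟨C, _, hC⟩ := h2
    rw [← hC]
    exact clause_dep C _
  simp only [Bool.false_eq_true, if_false] at h1 ⊢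
  rw [if_neg (by norm_num), if_neg (by norm_num)]
  omega

theorem clause_plain {p n : ℕ} (C : List Lit) (h : ∀ l ∈ C, l.1 < n) : (clauseFm (p := p) C).Plain n := by
  simp only [clauseFm, cnL, Fm.Plain]
  intro i
  have h2 := List.get_mem (C.map fun l : Lit => if l.2 then Fm.var l.1 else Fm.neg (Fm.var (p := p) l.1)) i
  rw [List.mem_map] at h2
  obtain ⟨l, hl, he⟩ := h2
  rw [← he]
  by_cases hb : l.2 = true
  · simpa [hb, Fm.Plain] using h l hl
  · simpa [hb, Fm.Plain] using h l hl

theorem taut_plain {p n : ℕ} (F : CNF) (h : ∀ C ∈ F, ∀ l ∈ C, l.1 < n) : (tautFm (p := p) F).Plain n := by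
  simp only [tautFm, cnL, Fm.Plain]
  intro i
  have h2 := List.get_mem (F.map (clauseFm (p := p))) i
  rw [List.mem_map] at h2
  obtain ⟨C, hC, he⟩ := h2
  rw [← he]
  exact clause_plain C (h C hC)

theorem clause_ev {p : ℕ} (C : List Lit) (a : ℕ → Bool) (h : ∀ l ∈ C, a l.1 ≠ l.2) :
    (clauseFm (p := p) C).ev a = false := by
  simp only [clauseFm, cnL, Fm.ev]
  rw [List.any_eq_false]
  intro x hx
  rw [List.mem_ofFn] at hx
  obtain ⟨i, hi⟩ := hx
  have h2 := List.get_mem (C.map fun l : Lit => if l.2 then Fm.var l.1 else Fm.neg (Fm.var (p := p) l.1)) i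
  rw [List.mem_map] at h2
  obtain ⟨l, hl, he⟩ := h2
  rw [← he] at hi
  have h3 := h l hl
  by_cases hb : l.2 = true
  · simp only [hb, if_true, Fm.ev] at hi
    rw [← hi]
    rw [hb] at h3
    simpa using h3
  · have hb' : l.2 = false := by simpa using hb
    rw [hb'] at hi h3
    simp only [Bool.false_eq_true, if_false, Fm.ev] at hi
    rw [← hi]
    have h4 : a l.1 = true := by simpa using h3
    rw [h4]
    simp

theorem taut_ev {p : ℕ} (F : CNF) (hF : F.Unsat) (a : ℕ → Bool) : (tautFm (p := p) F).ev a = true := by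
  simp only [tautFm, cnL, Fm.ev]
  obtain ⟨C, hC, h⟩ := hF a
  have h1 := clause_ev (p := p) C a h
  rw [Bool.not_eq_true']
  rw [List.all_eq_false]
  obtain ⟨i, hi, he⟩ := List.getElem_of_mem (List.mem_map_of_mem (f := clauseFm (p := p)) hC)
  refine ⟨(clauseFm (p := p) C).ev a, ?_, by rw [h1]; simp⟩
  rw [List.mem_ofFn]
  refine ⟨⟨i, hi⟩, ?_⟩
  simp only [List.get_eq_getElem]
  rw [he]

theorem clause_size {p : ℕ} (C : List Lit) : (clauseFm (p := p) C).size ≤ 1 + 2 * C.length := by
  rw [clauseFm, cnL_size]
  induction C with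
  | nil => simp
  | cons l C ih =>
    simp only [List.map_cons, List.sum_cons, List.length_cons]
    have h1 : (if l.2 then Fm.var l.1 else Fm.neg (Fm.var (p := p) l.1)).size ≤ 2 := by
      by_cases hb : l.2 = true
      · simp [hb, Fm.size]
      · simp [hb, Fm.size]
    omega

theorem taut_size {p : ℕ} (F : CNF) : (tautFm (p := p) F).size ≤ 2 + 2 * F.size := by
  have h1 : ((F.map (clauseFm (p := p))).map Fm.size).sum ≤ 2 * F.size := by
    induction F with
    | nil => simp
    | cons C F ih =>
      simp only [List.map_cons, List.sum_cons, CNF.size] at ih ⊢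
      have := clause_size (p := p) C
      omega
  simp only [tautFm, Fm.size]
  rw [cnL_size]
  omega

theorem psize_append {p : ℕ} (π π' : List (Fm p)) : psize (π ++ π') = psize π + psize π' := by
  simp [psize]

theorem prove_refute {p : ℕ} {S : List (Rule p)} {d : ℕ} {F : CNF} {π : List (Fm p)} (h : Proves S d (tautFm F) π) :
    Refutes (S ++ [ruleR]) (d + 2) F (π ++ F.map clauseFm ++ [cnL true []]) := by
  obtain ⟨h1, h2, h3⟩ := h
  refine ⟨?_, ?_, by simp⟩
  · intro A hA
    rw [List.mem_append, List.mem_append] at hA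
    rcases hA with (hA | hA) | hA
    · exact (h1 A hA).trans (by omega)
    · rw [List.mem_map] at hA
      obtain ⟨C, _, rfl⟩ := hA
      exact (clause_dep C 0).trans (by omega)
    · rw [List.mem_singleton] at hA
      rw [hA]
      simp [Fm.depth, cnL, Fm.dep]
  · intro i hi
    rcases lt_or_ge i π.length with hlt | hge
    · have e1 : (π ++ F.map clauseFm ++ [cnL true []])[i] = π[i] := by
        rw [List.getElem_append_left (by rw [List.length_append]; omega), List.getElem_append_left hlt]
      rw [e1]
      refine step_mono (fun R hR => List.mem_append_left _ hR) (fun C hC => by simp at hC) (fun B hB => ?_) (h2 i hlt)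
      rw [List.append_assoc, List.take_append_of_le_length hlt.le]
      exact hB
    · rcases lt_or_ge i (π.length + (F.map (clauseFm (p := p))).length) with hlt2 | hge2
      · have e1 : (π ++ F.map clauseFm ++ [cnL true []])[i] = (F.map (clauseFm (p := p)))[i - π.length]'(by omega) := by
          rw [List.getElem_append_left (by rw [List.length_append]; omega), List.getElem_append_right hge]
        rw [e1]
        left
        refine ⟨F[i - π.length]'(by rw [List.length_map] at hlt2; omega), List.getElem_mem _, ?_⟩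
        rw [List.getElem_map]
      · have hi2 : i = (π ++ F.map (clauseFm (p := p))).length := by
          have : (π ++ F.map clauseFm ++ [cnL true []]).length = (π ++ F.map (clauseFm (p := p))).length + 1 := by
            rw [List.length_append, List.length_singleton]
          rw [this] at hi
          rw [List.length_append] at hi ⊢
          omega
        subst hi2
        have e1 : (π ++ F.map clauseFm ++ [cnL true []])[(π ++ F.map (clauseFm (p := p))).length] = cnL true [] := by
          rw [List.getElem_append_right (le_refl _)]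
          simp
        rw [e1, List.take_left]
        right
        refine ⟨ruleR, by simp, fun _ => .var 0, fun _ => F.map clauseFm, ?_, ?_⟩
        · simp [ruleR, Sch.inst]
        · intro P hP B hB
          simp only [ruleR, List.mem_cons, List.not_mem_nil, or_false] at hP
          rcases hP with rfl | rfl
          · have e2 : (List.ofFn (fun _ : Fin 1 => F.map (clauseFm (p := p)))).flatten = F.map clauseFm := by
              simp [List.ofFn_succ]
            simp only [Sch.inst, e2, List.map_cons, List.map_nil, List.mem_singleton] at hB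
            rw [hB]
            exact List.mem_append_left _ h3
          · exact List.mem_append_right _ hB

theorem prove_psize {p : ℕ} {F : CNF} {π : List (Fm p)} (h : tautFm F ∈ π) :
    psize (π ++ F.map clauseFm ++ [cnL true []]) ≤ 3 * psize π := by
  rw [psize_append, psize_append]
  have h1 : (tautFm (p := p) F).size ≤ psize π := List.single_le_sum (by simp) _ (List.mem_map_of_mem h)
  have h2 : (tautFm (p := p) F).size = psize (F.map (clauseFm (p := p))) + 2 := by
    simp only [tautFm, Fm.size]
    rw [cnL_size, psize]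
    omega
  have h3 : psize [cnL (p := p) true []] = 1 := by
    simp [psize, cnL_size]
  omega

/-- The statement with tautologies follows. -/
theorem taut_of (p : ℕ) (h : Statement p) : StatementTaut p := by
  obtain ⟨F, c, hF, hS⟩ := h
  refine ⟨fun n => tautFm (F n), c + 2, fun n => ⟨?_, ?_, ?_, taut_depth _⟩, ?_⟩
  · exact taut_plain _ (fun C hC => ((hF n).2.2 C hC).2)
  · exact taut_ev _ (hF n).1
  · have h1 := taut_size (p := p) (F n)
    have h2 := (hF n).2.1
    have h3 : 1 ≤ (n + 2) ^ c := Nat.one_le_pow _ _ (by omega)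
    have h4 : (n + 2) ^ (c + 2) = (n + 2) ^ c * (n + 2) ^ 2 := pow_add _ _ _
    have h5 : 2 ^ 2 ≤ (n + 2) ^ 2 := Nat.pow_le_pow_left (by omega) 2
    have h6 : (n + 2) ^ c * 2 ^ 2 ≤ (n + 2) ^ c * (n + 2) ^ 2 := Nat.mul_le_mul_left _ h5
    rw [h4]
    exact h1.trans (by omega)
  · intro S hSs d
    obtain ⟨ε, hε, n₀, hn⟩ := hS (S ++ [ruleR]) (by
      intro R hR
      rw [List.mem_append, List.mem_singleton] at hR
      rcases hR with hR | rfl
      · exact hSs R hR
      · exact ruleR_sound) (d + 2)
    refine ⟨ε / 2, by positivity, max n₀ ⌈(2 : ℝ) ^ (2 / ε)⌉₊, ?_⟩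
    intro n hn' π hπ
    have h1 := hn n ((le_max_left _ _).trans hn') _ (prove_refute hπ)
    have h2 : (psize (π ++ (F n).map clauseFm ++ [cnL true []]) : ℝ) ≤ 3 * psize π := by
      exact_mod_cast prove_psize hπ.2.2
    have hnn : (2 : ℝ) ^ (2 / ε) ≤ n := (Nat.le_ceil _).trans (by exact_mod_cast (le_max_right _ _).trans hn')
    have hx : (2 : ℝ) ≤ (n : ℝ) ^ (ε / 2) := by
      have : ((2 : ℝ) ^ (2 / ε)) ^ (ε / 2) ≤ (n : ℝ) ^ (ε / 2) :=
        Real.rpow_le_rpow (by positivity) hnn (by positivity)
      rw [← Real.rpow_mul (by norm_num)] at this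
      have e : 2 / ε * (ε / 2) = 1 := by field_simp
      rwa [e, Real.rpow_one] at this
    have hsq : (n : ℝ) ^ ε = (n : ℝ) ^ (ε / 2) * (n : ℝ) ^ (ε / 2) := by
      rw [← Real.rpow_add' (by positivity) (by positivity)]
      congr 1
      ring
    have h3 : (n : ℝ) ^ (ε / 2) + 2 ≤ (n : ℝ) ^ ε := by
      rw [hsq]
      nlinarith
    have h4 : (2 : ℝ) ^ ((n : ℝ) ^ (ε / 2)) * 4 ≤ (2 : ℝ) ^ ((n : ℝ) ^ ε) := by
      have e : (2 : ℝ) ^ ((n : ℝ) ^ (ε / 2)) * 4 = (2 : ℝ) ^ ((n : ℝ) ^ (ε / 2) + 2) := by
        rw [Real.rpow_add (by norm_num)]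
        norm_num
      rw [e]
      exact Real.rpow_le_rpow_of_exponent_le (by norm_num) h3
    have h5 : (0 : ℝ) < (2 : ℝ) ^ ((n : ℝ) ^ (ε / 2)) := by positivity
    linarith

end ACpFrege
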